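import Pool.Agent.helper53.ORT.Spec

/-!
# Project ort (MP_561ff4_al), row E6: blocks of two, tight
-/

set_option autoImplicit false

namespace Pool.Agent.ORT

open Module Pool.Agent.GS

open scoped BigOperators

/-- Two orthogonal families with the same span coming from bases of `K`. -/
theorem E6_span {F V K ι : Type} [Field F] [AddCommGroup V] [Module F V] [Field K] [Algebra F K]
    (j : K →ₗ[F] V) (u : Basis ι F K) :
    Submodule.span F (Set.range fun i => j (u i)) = LinearMap.range j := by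
  have h : (Set.range fun i => j (u i)) = j '' Set.range u := by
    ext x
    simp
  rw [h, Submodule.span_image, u.span_eq, Submodule.map_top]

theorem E6_norm {F V K ι : Type} [Field F] [AddCommGroup V] [Module F V] [Field K] [Algebra F K]
    [DecidableEq ι] {B : LinearMap.BilinForm F V} {k : Equiv.Perm V} {β σ : K} {j : K →ₗ[F] V}
    (hD : Dat B k β σ j) (u : Basis ι F K) {c : ι → F} (hu : Orth (bf F K β⁻¹) u c) :
    ∀ i i', B (j (u i)) (j (u i')) = if i = i' then c i else 0 := by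
  intro i i'
  rw [hD.f1, ← hu i i']
  show _ = Algebra.trace F K ((β⁻¹)⁻¹ * u i * u i')
  rw [inv_inv]

theorem E6_one {F V : Type} [Field F] [AddCommGroup V] [Module F V]
    {B : LinearMap.BilinForm F V} {a : Fin 1 → V} (h : Og B a) : fl B a = rf B (a 0) := by
  ext x
  rw [fl_apply h, rf_apply (h.n 0), Fin.sum_univ_one]

/-- The middle block. -/
theorem E6_mid {F V : Type} [Field F] [AddCommGroup V] [Module F V]
    {B : LinearMap.BilinForm F V} {y : Equiv.Perm V} (hy : Bk B y 2) {x z : V}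
    (hxz : B x z = 0) (hzx : B z x = 0) (hx : B x x ≠ 0) (he : B x x = B z z) :
    Gn B y 2 (rf B x * rf B z) := by
  let X : Fin 1 → V := fun _ => x
  let Z : Fin 1 → V := fun _ => z
  have hz : B z z ≠ 0 := by rw [← he]; exact hx
  have hX : Og B X := ⟨fun i i' h => absurd (Subsingleton.elim i i') h, fun _ => hx⟩
  have hZ : Og B Z := ⟨fun i i' h => absurd (Subsingleton.elim i i') h, fun _ => hz⟩
  have hS : Og B (Sum.elim X Z) := by
    refine ⟨?_, ?_⟩
    · rintro (i | i) (i' | i') hii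
      · exact absurd (by rw [Subsingleton.elim i i']) hii
      · exact hxz
      · exact hzx
      · exact absurd (by rw [Subsingleton.elim i i']) hii
    · rintro (i | i)
      · exact hx
      · exact hz
  let e : Fin 2 ≃ Fin 1 ⊕ Fin 1 := (finSumFinEquiv (m := 1) (n := 1)).symm
  have h1 := fl_equiv hS e
  have h2 := fl_sum hS
  rw [E6_one hX, E6_one hZ] at h2
  have h3 : rf B x * rf B z = fl B (fun i => Sum.elim X Z (e i)) := by
    rw [h1, h2]
  rw [h3]
  refine hy _ (hS.comp e.injective) ?_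
  have h4 : ∏ i, B (Sum.elim X Z (e i)) (Sum.elim X Z (e i)) =
      ∏ i, B (Sum.elim X Z i) (Sum.elim X Z i) :=
    Equiv.prod_comp e fun i => B (Sum.elim X Z i) (Sum.elim X Z i)
  rw [h4, Fintype.prod_sum_type]
  simp only [Sum.elim_inl, Sum.elim_inr, Fin.prod_univ_one]
  exact ⟨B x x, by show B x x * B z z = _; rw [he]⟩

theorem E6 (e7 : E7_stmt) (e1 : E1_stmt) (kh : KH_stmt) (fls : FLS_stmt) (dg : GS.DG_stmt)
    (bf : GS.BF_stmt) : E6_stmt := by
  intro F V K _ _ _ _ _ _ _ _ _ B hF hB k hk r hr hr2 hkr β σ j hD h3F h3 hodd y hy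
  obtain ⟨l, hl⟩ := hodd
  have hcard : Fintype.card ((Fin l × Fin 2) ⊕ Fin 1) = finrank F K := by
    rw [Fintype.card_sum, Fintype.card_prod, Fintype.card_fin, Fintype.card_fin, Fintype.card_fin]
    omega
  let β₀ : Basis ((Fin l × Fin 2) ⊕ Fin 1) F K :=
    (finBasis F K).reindex (Fintype.equivOfCardEq (by rw [hcard, Fintype.card_fin]))
  obtain ⟨δ, c₁, c₂, hδ, hsq, hc₁, hc₂, hc⟩ := e7 β₀ hF h3 β σ hD.b0 hD.s0 h3F
  let c : (Fin l × Fin 2) ⊕ Fin 1 → F := Sum.elim (fun _ => 1) (fun _ => δ)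
  have hc0 : ∀ i, c i ≠ 0 := by
    rintro (i | i)
    · exact one_ne_zero
    · exact hδ
  have hprod : ∏ i, c i = δ := by
    rw [Fintype.prod_sum_type]
    simp [c]
  have hsym : Sym (Pool.Agent.GS.bf F K β⁻¹) := bf.1 β⁻¹ (inv_ne_zero hD.b0)
  have hdg := (dg (Pool.Agent.GS.bf F K β⁻¹) hF hsym β₀ c hc0 (by rw [hprod]; exact hsq)).2
    (Sum.inr 0)
  have hbf : ∀ x : K, Pool.Agent.GS.bf F K β⁻¹ x x = Algebra.trace F K (β * x ^ 2) := by
    intro x
    show Algebra.trace F K ((β⁻¹)⁻¹ * x * x) = _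
    rw [inv_inv, mul_assoc, sq]
  obtain ⟨u, hu, hu0⟩ := hdg c₁ (by rw [hbf, hc₁]; rfl)
  obtain ⟨w, hw, hw0⟩ := hdg c₂ (by rw [hbf, hc₂]; rfl)
  have hun := E6_norm hD u hu
  have hwn := E6_norm hD w hw
  obtain ⟨hOu, hNS⟩ := kh B hF hB k hk r hr hr2 hkr β σ j hD u c hc0 hun
  obtain ⟨hOw, -⟩ := kh B hF hB k hk r hr hr2 hkr β σ j hD w c hc0 hwn
  have hfl : fl B (fun i => j (u i)) = fl B (fun i => j (w i)) :=
    fls B hB _ _ hOu hOw (by rw [E6_span, E6_span])
  let A : Fin l × Fin 2 → V := fun i => j (u (Sum.inl i))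
  let A' : Fin l × Fin 2 → V := fun i => j (w (Sum.inl i))
  let R : Fin 1 → V := fun i => j (u (Sum.inr i))
  let R' : Fin 1 → V := fun i => j (w (Sum.inr i))
  have hel : (fun i => j (u i)) = Sum.elim A R := by
    funext i
    rcases i with i | i <;> rfl
  have hel' : (fun i => j (w i)) = Sum.elim A' R' := by
    funext i
    rcases i with i | i <;> rfl
  have hOA : Og B (Sum.elim A R) := by rw [← hel]; exact hOu
  have hOA' : Og B (Sum.elim A' R') := by rw [← hel']; exact hOw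
  have hR : fl B R = rf B (j c₁) := by
    rw [E6_one hOA.inr]
    show rf B (j (u (Sum.inr 0))) = _
    rw [hu0]
  have hR' : fl B R' = rf B (j c₂) := by
    rw [E6_one hOA'.inr]
    show rf B (j (w (Sum.inr 0))) = _
    rw [hw0]
  -- the two outer blocks
  have g1 : Gn B y (2 * l) (k * fl B A * k⁻¹) := by
    rw [fl_conj hk hOA.inl]
    refine e1 B hB y 2 l hy _ (hOA.inl.mem hk) fun i => ?_
    rw [hk.2]
    show B (j (u (Sum.inl i))) (j (u (Sum.inl i))) = 1
    rw [hun, if_pos rfl]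
    rfl
  have g2 : Gn B y (2 * l) (fl B A') := by
    refine e1 B hB y 2 l hy _ hOA'.inl fun i => ?_
    show B (j (w (Sum.inl i))) (j (w (Sum.inl i))) = 1
    rw [hwn, if_pos rfl]
    rfl
  -- the middle block
  have h2 : (2 : F) ≠ 0 := Ring.two_ne_zero hF
  have n1 : B (j c₁) (j c₁) = δ := by
    rw [hD.f1, mul_assoc, ← sq, hc₁]
  have n2 : B (j c₂) (j c₂) = δ := by
    rw [hD.f1, mul_assoc, ← sq, hc₂]
  have o1 : B (k (j c₁)) (j c₂) = 0 := by
    have h := hD.f2 c₁ c₂
    rw [hc] at h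
    exact (mul_eq_zero.1 h).resolve_left h2
  have g3 : Gn B y 2 (rf B (k (j c₁)) * rf B (j c₂)) := by
    refine E6_mid hy o1 (by rw [hB.symm, o1]) (by rw [hk.2, n1]; exact hδ)
      (by rw [hk.2, n1, n2])
  have hmem : k * fl B (fun i => j (u i)) * k⁻¹ * fl B (fun i => j (u i)) ∈ Om B := by
    have h : k * fl B (fun i => j (u i)) * k⁻¹ * (fl B (fun i => j (u i)))⁻¹ ∈ Om B :=
      Subgroup.commutator_mem_commutator hk (fl_mem hB _)
    rwa [fl_inv] at h
  refine ⟨_, hmem, ?_, hNS⟩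
  have hfac : k * fl B (fun i => j (u i)) * k⁻¹ * fl B (fun i => j (u i)) =
      (k * fl B A * k⁻¹) * (rf B (k (j c₁)) * rf B (j c₂)) * fl B A' := by
    have s1 := fl_sum hOA
    have s2 := fl_sum hOA'
    have s3 := fl_comm hOA'
    have s4 := rf_conj_sp hk (j c₁)
    calc k * fl B (fun i => j (u i)) * k⁻¹ * fl B (fun i => j (u i))
        = k * fl B (fun i => j (u i)) * k⁻¹ * fl B (fun i => j (w i)) := by rw [← hfl]
      _ = k * (fl B A * fl B R) * k⁻¹ * (fl B R' * fl B A') := by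
          rw [hel, hel', s1, s2, s3]
      _ = (k * fl B A * k⁻¹) * ((k * rf B (j c₁) * k⁻¹) * rf B (j c₂)) * fl B A' := by
          rw [hR, hR']
          group
      _ = _ := by rw [s4]
  rw [hfac]
  have l0 : k * fl B A * k⁻¹ ∈ SpG B :=
    (SpG B).mul_mem ((SpG B).mul_mem hk (fl_mem hB _)) ((SpG B).inv_mem hk)
  have l1 : rf B (k (j c₁)) * rf B (j c₂) ∈ SpG B :=
    (SpG B).mul_mem (rf_mem hB _) (rf_mem hB _)
  have h5 := (g1.mul g3 l0.1).mul g2 ((SpG B).mul_mem l0 l1).1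
  exact h5.mono (by omega)

end Pool.Agent.ORT
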